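import Mathlib
import Pool.Agent.Helper55.LF.Defs

namespace Pool.Agent.Helper55.LF

open Finset

section eval

lemma ev_om_sum (P : Par) {ι κ : Type*} (s : Finset ι) (t : Finset κ) (u : ι → ZMod P.l)
    (v : κ → ZMod P.l) (a : ι → ZMod P.m) (b : κ → ZMod P.m) (y : ZMod P.D) :
    om P (fun x => ∑ i ∈ s, if u i = x then a i else 0)
      (fun x => ∑ j ∈ t, if v j = x then b j else 0) y
      = ∑ i ∈ s, ∑ j ∈ t,
        if red P (u i) = y ∧ u i - (P.D : ZMod P.l) = v j then a i * b j else 0 := by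
  simp only [om]
  have h0 : ∀ e, (if red P e = y then (∑ i ∈ s, if u i = e then a i else 0) *
      (∑ j ∈ t, if v j = e - (P.D : ZMod P.l) then b j else 0) else 0) =
      ∑ i ∈ s, ∑ j ∈ t, if u i = e then
        (if red P (u i) = y ∧ u i - (P.D : ZMod P.l) = v j then a i * b j else 0) else 0 := by
    intro e
    split_ifs with h
    · rw [Finset.sum_mul_sum]
      refine sum_congr rfl fun i _ => sum_congr rfl fun j _ => ?_
      by_cases h1 : u i = e
      · subst h1
        by_cases h2 : v j = u i - (P.D : ZMod P.l)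
        · simp [h, h2]
        · have h3 : ¬ (u i - (P.D : ZMod P.l) = v j) := fun h => h2 h.symm
          simp [h, h2, h3]
      · simp [h1]
    · symm
      refine sum_eq_zero fun i _ => sum_eq_zero fun j _ => ?_
      by_cases h1 : u i = e
      · subst h1
        simp [h]
      · simp [h1]
  simp only [h0]
  rw [sum_comm]
  refine sum_congr rfl fun i _ => ?_
  rw [sum_comm]
  refine sum_congr rfl fun j _ => ?_
  simp

lemma ev_pass_succ {B : ℕ} (α : ℕ → Fin 2) (β : ℕ → Fin B) (L : ℕ) :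
    pass α β (L + 1) = pass α β L ++ [(Sum.inl (α L, β L), true)] := by
  simp [pass, List.range_succ]

/-- value of a pass -/
lemma ev_pass (P : Par) {B : ℕ} (α : ℕ → Fin 2) (β : ℕ → Fin B) (L : ℕ) :
    wp (kv P B) (pass α β L) =
      ⟨fun x => ∑ i ∈ range L, if ((i : ℕ) : ZMod P.l) = x then ((α i : ℕ) : ZMod P.m) else 0,
       fun x => ∑ i ∈ range L, if ((i : ℕ) : ZMod P.l) = x then ((β i : ℕ) : ZMod P.m) else 0,
       fun y => ∑ j ∈ range L, ∑ i ∈ range j,
        if red P ((i : ℕ) : ZMod P.l) = y ∧ ((i : ℕ) : ZMod P.l) - (P.D : ZMod P.l) =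
          ((j : ℕ) : ZMod P.l) then ((α i : ℕ) : ZMod P.m) * ((β j : ℕ) : ZMod P.m) else 0,
       ((L : ℕ) : ZMod P.l)⟩ := by
  induction L with
  | zero =>
    simp only [pass, List.range_zero, List.map_nil, wp_nil, range_zero, sum_empty, Nat.cast_zero]
    rfl
  | succ L ih =>
    rw [ev_pass_succ, wp_append, ih]
    simp only [wp_cons, lv_true, wp_nil, mul_one, kv]
    have hs : ∀ (c : ℤ) (e : ZMod P.l), (Pi.single (M := fun _ => ZMod P.m) (0 : ZMod P.l)
        (c : ZMod P.m)) (e - ((L : ℕ) : ZMod P.l)) =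
        if ((L : ℕ) : ZMod P.l) = e then (c : ZMod P.m) else 0 := by
      intro c e
      rw [Pi.single_apply]
      have : (e - ((L : ℕ) : ZMod P.l) = 0) ↔ (((L : ℕ) : ZMod P.l) = e) := by
        rw [sub_eq_zero, eq_comm]
      simp only [this]
    ext e
    · simp only [KG.mul_f, kl, hs, sum_range_succ]
      push_cast
      rfl
    · simp only [KG.mul_g, kl, hs, sum_range_succ]
      push_cast
      rfl
    · simp only [KG.mul_h, kl, hs]
      have h1 := ev_om_sum P (range L) ({L} : Finset ℕ) (fun i => ((i : ℕ) : ZMod P.l))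
        (fun i => ((i : ℕ) : ZMod P.l)) (fun i => ((α i : ℕ) : ZMod P.m))
        (fun i => ((β i : ℕ) : ZMod P.m)) e
      simp only [sum_singleton] at h1
      rw [sum_range_succ, add_zero, ← h1]
      push_cast
      rfl
    · simp only [KG.mul_n, kl]
      push_cast
      rfl

lemma ev_square {M : Type*} [AddCommMonoid M] (T : ℕ → ℕ → M) (L : ℕ) :
    ∑ i ∈ range L, ∑ j ∈ range L, T i j = (∑ j ∈ range L, ∑ i ∈ range j, T i j) +
      (∑ i ∈ range L, T i i) + ∑ i ∈ range L, ∑ j ∈ range i, T i j := by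
  induction L with
  | zero => simp
  | succ L ih =>
    rw [sum_range_succ, sum_range_succ (fun i => T i i), sum_range_succ (fun j => T L j),
      sum_range_succ (fun j => ∑ i ∈ range j, T i j), sum_range_succ (fun i => ∑ j ∈ range i, T i j)]
    have h1 : ∑ i ∈ range L, ∑ j ∈ range (L + 1), T i j =
        ∑ i ∈ range L, ∑ j ∈ range L, T i j + ∑ i ∈ range L, T i L := by
      rw [← sum_add_distrib]
      exact sum_congr rfl fun i _ => sum_range_succ _ _
    rw [h1, ih]
    abel

/-- the pairing of the later `a`-lamps with the earlier `b`-lamps -/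
def evOm (P : Par) (α : ℕ → ZMod P.m) (γ : ℕ → ZMod P.m) (L : ℕ) (y : ZMod P.D) : ZMod P.m :=
  ∑ i ∈ range L, ∑ j ∈ range i,
    if red P ((i : ℕ) : ZMod P.l) = y ∧ ((i : ℕ) : ZMod P.l) - (P.D : ZMod P.l) =
      ((j : ℕ) : ZMod P.l) then α i * γ j else 0

lemma ev_D_ne (P : Par) : ((P.D : ℕ) : ZMod P.l) ≠ 0 := by
  intro h
  rw [ZMod.natCast_eq_zero_iff] at h
  have h1 := Nat.le_of_dvd P.hD h
  have h2 := P.h3
  have h3 := P.hD
  omega

lemma ev_half (P : Par) {B : ℕ} (α : ℕ → Fin 2) (β : ℕ → Fin B) (L : ℕ) :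
    wp (kv P B) (pass α β L) * (wp (kv P B) (pass (fun _ => 0) β L))⁻¹ =
      ⟨fun x => ∑ i ∈ range L, if ((i : ℕ) : ZMod P.l) = x then ((α i : ℕ) : ZMod P.m) else 0,
       fun _ => 0, fun y => - evOm P (fun i => ((α i : ℕ) : ZMod P.m))
        (fun i => ((β i : ℕ) : ZMod P.m)) L y, 0⟩ := by
  rw [ev_pass, ev_pass]
  have hz : ∀ e : ZMod P.l, (∑ i ∈ range L, if ((i : ℕ) : ZMod P.l) = e then
      (((0 : Fin 2) : ℕ) : ZMod P.m) else 0) = 0 := fun e => sum_eq_zero fun i _ => by simp
  have hz2 : ∀ y : ZMod P.D, (∑ j ∈ range L, ∑ i ∈ range j,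
        if red P ((i : ℕ) : ZMod P.l) = y ∧ ((i : ℕ) : ZMod P.l) - (P.D : ZMod P.l) =
          ((j : ℕ) : ZMod P.l) then (((0 : Fin 2) : ℕ) : ZMod P.m) * ((β j : ℕ) : ZMod P.m)
          else 0) = 0 := fun y => sum_eq_zero fun j _ => sum_eq_zero fun i _ => by simp
  ext e
  · simp only [KG.mul_f, KG.inv_f, hz]
    simp
  · simp only [KG.mul_g, KG.inv_g]
    have : e - ((L : ℕ) : ZMod P.l) + ((L : ℕ) : ZMod P.l) = e := by ring
    rw [this]
    ring
  · simp only [KG.mul_h, KG.inv_h, KG.inv_g, hz, hz2]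
    have e1 : (fun e : ZMod P.l => -∑ i ∈ range L, if ((i : ℕ) : ZMod P.l) =
        e - ((L : ℕ) : ZMod P.l) + ((L : ℕ) : ZMod P.l) then ((β i : ℕ) : ZMod P.m) else 0) =
        fun e : ZMod P.l => -∑ i ∈ range L, if ((i : ℕ) : ZMod P.l) = e then
          ((β i : ℕ) : ZMod P.m) else 0 := by
      funext e
      have : e - ((L : ℕ) : ZMod P.l) + ((L : ℕ) : ZMod P.l) = e := by ring
      rw [this]
    rw [e1, KG.om_neg_right, KG.om_zero_left, ev_om_sum, ev_square]
    have e2 : (∑ i ∈ range L, if red P ((i : ℕ) : ZMod P.l) = e ∧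
        ((i : ℕ) : ZMod P.l) - (P.D : ZMod P.l) = ((i : ℕ) : ZMod P.l) then
        ((α i : ℕ) : ZMod P.m) * ((β i : ℕ) : ZMod P.m) else 0) = 0 := by
      refine sum_eq_zero fun i _ => ?_
      rw [if_neg]
      rintro ⟨-, h⟩
      exact ev_D_ne P (by simpa using h)
    rw [e2]
    unfold evOm
    ring
  · simp only [KG.mul_n, KG.inv_n]
    ring

/-- M5a -/
theorem eval_stdW (P : Par) {B : ℕ} (D : ℕ) (β β' : ℕ → Fin B) :
    wp (kv P B) (stdW D β β') =
      ⟨fun _ => 0, fun _ => 0, fun y => ∑ e ∈ Finset.Ico D (2 * D), ∑ e' ∈ Finset.range e,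
        (if ((e : ℤ) - (e' : ℤ) - (P.D : ℤ) : ℤ) ≡ 0 [ZMOD P.l] ∧ ((e : ℕ) : ZMod P.D) = y then
          ((((β' e' : ℕ) : ℤ) - ((β e' : ℕ) : ℤ) : ℤ) : ZMod P.m) else 0), 0⟩ := by
  unfold stdW
  rw [wp_append, wp_append, wp_append, wp_winv, wp_winv, ← mul_assoc, ev_half]
  have h1 : wp (kv P B) (pass (fun _ => 0) β' (2 * D)) *
      (wp (kv P B) (pass (blk D) β' (2 * D)))⁻¹ =
      (wp (kv P B) (pass (blk D) β' (2 * D)) *
        (wp (kv P B) (pass (fun _ => 0) β' (2 * D)))⁻¹)⁻¹ := by group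
  rw [h1, ev_half]
  ext e
  · simp only [KG.mul_f, KG.inv_f]
    simp
  · simp only [KG.mul_g, KG.inv_g]
    simp
  · simp only [KG.mul_h, KG.inv_h, KG.inv_g, map_zero, sub_zero, add_zero, KG.om_zero_right,
      neg_zero, neg_neg]
    unfold evOm
    rw [neg_add_eq_sub, ← sum_sub_distrib]
    rw [range_eq_Ico, ← sum_Ico_consecutive _ (Nat.zero_le D) (by omega : D ≤ 2 * D)]
    have h3 : ∀ i ∈ Ico 0 D, blk D i = 0 := by
      intro i hi
      rw [mem_Ico] at hi
      simp [blk, hi.2]
    have h4 : ∀ i ∈ Ico D (2 * D), blk D i = 1 := by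
      intro i hi
      rw [mem_Ico] at hi
      simp [blk, hi.1]
    rw [sum_eq_zero (s := Ico 0 D), zero_add]
    · refine sum_congr rfl fun i hi => ?_
      rw [← sum_sub_distrib]
      refine sum_congr rfl fun j hj => ?_
      have hred : red P ((i : ℕ) : ZMod P.l) = ((i : ℕ) : ZMod P.D) := by
        simp [red]
      simp only [h4 i hi]
      rw [hred]
      have hmod : ((((i : ℕ) : ZMod P.l) - (P.D : ZMod P.l) = ((j : ℕ) : ZMod P.l)) ↔
          ((i : ℤ) - (j : ℤ) - (P.D : ℤ) : ℤ) ≡ 0 [ZMOD P.l]) := by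
        rw [← ZMod.intCast_eq_intCast_iff]
        push_cast
        constructor
        · intro h
          rw [← h]
          ring
        · intro h
          linear_combination h
      simp only [hmod]
      by_cases hA : (((i : ℤ) - (j : ℤ) - (P.D : ℤ) : ℤ) ≡ 0 [ZMOD P.l]) ∧
          ((i : ℕ) : ZMod P.D) = e
      · rw [if_pos hA, if_pos hA.symm, if_pos hA.symm]
        push_cast
        simp
      · rw [if_neg hA, if_neg (fun h => hA h.symm), if_neg (fun h => hA h.symm), sub_zero]
    · intro i hi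
      simp [h3 i hi]
  · simp

end eval

section gam

/-- sums over a full period -/
lemma ev_period {M : Type*} [AddCommMonoid M] (n : ℕ) [NeZero n] (G : ZMod n → M) (s : ℕ) :
    ∑ v ∈ Ico s (s + n), G ((v : ℕ) : ZMod n) = ∑ x, G x := by
  have hn : 0 < n := Nat.pos_of_ne_zero (NeZero.ne n)
  induction s with
  | zero =>
    rw [zero_add]
    refine sum_nbij' (fun v => ((v : ℕ) : ZMod n)) (fun x => x.val) ?_ ?_ ?_ ?_ ?_
    · intro v _
      exact mem_univ _
    · intro x _
      exact mem_Ico.mpr ⟨Nat.zero_le _, ZMod.val_lt x⟩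
    · intro v hv
      exact ZMod.val_cast_of_lt (mem_Ico.mp hv).2
    · intro x _
      exact ZMod.natCast_rightInverse x
    · intro v _
      rfl
  | succ s ih =>
    rw [← ih, sum_eq_sum_Ico_succ_bot (by omega : s < s + n)]
    have h1 : s + 1 + n = (s + n) + 1 := by omega
    rw [h1, sum_Ico_succ_top (by omega : s + 1 ≤ s + n), add_comm]
    congr 2
    simp

lemma ev_period_mul {M : Type*} [AddCommMonoid M] (n : ℕ) [NeZero n] (G : ZMod n → M) (s q : ℕ) :
    ∑ v ∈ Ico s (s + n * q), G ((v : ℕ) : ZMod n) = q • ∑ x, G x := by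
  induction q with
  | zero => simp
  | succ q ih =>
    have h1 : s + n * (q + 1) = (s + n * q) + n := by ring
    rw [h1, ← sum_Ico_consecutive _ (by omega : s ≤ s + n * q) (by omega), ih, ev_period, succ_nsmul]

lemma ev_cnt0 (P : Par) {D : ℕ} (hD : P.m * P.l ∣ D) (s : ℕ) (G : ZMod P.l → ZMod P.m) :
    ∑ e ∈ Ico s (s + D), G ((e : ℕ) : ZMod P.l) = 0 := by
  obtain ⟨q, rfl⟩ := hD
  have h1 : P.m * P.l * q = P.l * (P.m * q) := by ring
  rw [h1, ev_period_mul, nsmul_eq_mul]
  push_cast
  simp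

/-- the number of admissible partners -/
def evN (P : Par) (v : ℕ) : ZMod P.m :=
  ∑ w ∈ range v, if ((w + 1 : ℕ) : ZMod P.l) = ((P.D : ℕ) : ZMod P.l) then 1 else 0

/-- the residue condition -/
def evG (P : Par) (y : ZMod P.D) (v : ℕ) : ZMod P.m :=
  if (-1 - ((v : ℕ) : ZMod P.D)) = y then 1 else 0

lemma ev_eq_D (P : Par) {w : ℕ} (hw : w < P.l) :
    (((w : ℕ) : ZMod P.l) = ((P.D : ℕ) : ZMod P.l)) ↔ w = P.D := by
  have h3 := P.h3
  have h4 := P.hD
  rw [ZMod.natCast_eq_natCast_iff', Nat.mod_eq_of_lt hw, Nat.mod_eq_of_lt (by omega)]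

lemma evN_zero (P : Par) {v : ℕ} (hv : v < P.D) : evN P v = 0 := by
  refine sum_eq_zero fun w hw => ?_
  rw [mem_range] at hw
  have h3 := P.h3
  rw [if_neg]
  rw [ev_eq_D P (by omega)]
  omega

lemma evN_step (P : Par) {v : ℕ} (h1 : P.l ≤ v) (h2 : v < P.l + P.D) :
    evN P (v + P.D) = evN P v + 1 := by
  unfold evN
  have h3 := P.h3
  have h4 := P.hD
  rw [range_eq_Ico, ← sum_Ico_consecutive _ (Nat.zero_le v) (by omega : v ≤ v + P.D),
    range_eq_Ico]
  congr 1
  rw [sum_eq_single (P.l + P.D - 1)]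
  · have : P.l + P.D - 1 + 1 = P.l + P.D := by omega
    rw [this]
    simp
  · intro w hw hne
    rw [mem_Ico] at hw
    rw [if_neg]
    have e1 : w + 1 = P.l + (w + 1 - P.l) := by omega
    rw [e1]
    push_cast [ZMod.natCast_self]
    rw [zero_add]
    have h5 := ev_eq_D P (w := w + 1 - P.l) (by omega)
    rw [h5]
    omega
  · intro h
    exfalso
    exact h (mem_Ico.mpr ⟨by omega, by omega⟩)

lemma evN_add (P : Par) {D : ℕ} (hD : P.m * P.l ∣ D) (v : ℕ) : evN P (v + D) = evN P v := by
  unfold evN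
  rw [range_eq_Ico, ← sum_Ico_consecutive _ (Nat.zero_le v) (by omega : v ≤ v + D),
    range_eq_Ico]
  have h1 := ev_cnt0 P hD v (fun x => if x + 1 = ((P.D : ℕ) : ZMod P.l) then 1 else 0)
  push_cast at h1 ⊢
  rw [h1, add_zero]

lemma evG_add (P : Par) (y : ZMod P.D) {D : ℕ} (hD : P.D ∣ D) (v : ℕ) :
    evG P y (v + D) = evG P y v := by
  unfold evG
  have : ((D : ℕ) : ZMod P.D) = 0 := (ZMod.natCast_eq_zero_iff _ _).mpr hD
  push_cast
  rw [this, add_zero]

lemma evG_sum (P : Par) (y : ZMod P.D) (s : ℕ) : ∑ v ∈ Ico s (s + P.D), evG P y v = 1 := by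
  unfold evG
  rw [ev_period P.D (fun x => if -1 - x = y then (1 : ZMod P.m) else 0)]
  have h1 : ∀ x : ZMod P.D, (-1 - x = y) ↔ (x = -1 - y) := by
    intro x
    constructor
    · intro h
      rw [← h]
      ring
    · intro h
      rw [h]
      ring
  simp [h1]

lemma ev_main (P : Par) {D : ℕ} (hD : P.m * P.l ∣ D) (γ : ℕ → ZMod P.m) (y : ZMod P.D) :
    ∑ e ∈ Ico D (2 * D), ∑ e' ∈ range e,
      (if ((e : ℤ) - (e' : ℤ) - (P.D : ℤ) : ℤ) ≡ 0 [ZMOD P.l] ∧ ((e : ℕ) : ZMod P.D) = y then
        γ e' else 0) = ∑ v ∈ range D, evN P v * evG P y v * γ (2 * D - 1 - v) := by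
  have hc : ∀ e e' : ℕ, (((e : ℤ) - (e' : ℤ) - (P.D : ℤ) : ℤ) ≡ 0 [ZMOD P.l]) ↔
      (((e : ℕ) : ZMod P.l) = ((e' : ℕ) : ZMod P.l) + ((P.D : ℕ) : ZMod P.l)) := by
    intro e e'
    rw [← ZMod.intCast_eq_intCast_iff]
    push_cast
    constructor
    · intro h
      linear_combination h
    · intro h
      rw [h]
      ring
  simp only [hc]
  have h1 : ∀ e ∈ Ico D (2 * D), (∑ e' ∈ range e,
      (if (((e : ℕ) : ZMod P.l) = ((e' : ℕ) : ZMod P.l) + ((P.D : ℕ) : ZMod P.l)) ∧
        ((e : ℕ) : ZMod P.D) = y then γ e' else 0)) =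
      ∑ e' ∈ range (2 * D), (if e' < e ∧ ((((e : ℕ) : ZMod P.l) = ((e' : ℕ) : ZMod P.l) +
        ((P.D : ℕ) : ZMod P.l)) ∧ ((e : ℕ) : ZMod P.D) = y) then 1 else 0) * γ e' := by
    intro e he
    rw [mem_Ico] at he
    rw [range_eq_Ico, range_eq_Ico, ← sum_Ico_consecutive _ (Nat.zero_le e) he.2.le]
    rw [sum_eq_zero (s := Ico e (2 * D)), add_zero]
    · refine sum_congr rfl fun e' he' => ?_
      rw [mem_Ico] at he'
      simp [he'.2]
    · intro e' he'
      rw [mem_Ico] at he'
      have : ¬ e' < e := by omega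
      simp [this]
  rw [sum_congr rfl h1, sum_comm]
  simp only [← sum_mul]
  rw [range_eq_Ico, ← sum_Ico_consecutive _ (Nat.zero_le D) (by omega : D ≤ 2 * D)]
  rw [sum_eq_zero (s := Ico 0 D), zero_add]
  · -- the partners of late positions
    symm
    refine sum_nbij' (fun v => 2 * D - 1 - v) (fun e' => 2 * D - 1 - e') ?_ ?_ ?_ ?_ ?_
    · intro v hv
      rw [mem_range] at hv
      exact mem_Ico.mpr ⟨by omega, by omega⟩
    · intro e' he'
      rw [mem_Ico] at he'
      exact mem_range.mpr (by omega)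
    · intro v hv
      rw [mem_range] at hv
      show 2 * D - 1 - (2 * D - 1 - v) = v
      omega
    · intro e' he'
      rw [mem_Ico] at he'
      show 2 * D - 1 - (2 * D - 1 - e') = e'
      omega
    · intro v hv
      rw [mem_range] at hv
      congr 1
      unfold evN
      rw [← sum_Ico_consecutive _ (by omega : D ≤ 2 * D - v) (by omega : 2 * D - v ≤ 2 * D)]
      rw [sum_eq_zero (s := Ico D (2 * D - v)), zero_add]
      · have h3 : Ico (2 * D - v) (2 * D) = Ico (0 + (2 * D - v)) (v + (2 * D - v)) := by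
          congr 1 <;> omega
        rw [h3, ← sum_Ico_add', sum_mul, range_eq_Ico]
        refine sum_congr rfl fun w hw => ?_
        rw [mem_Ico] at hw
        have h4 : 2 * D - 1 - v < w + (2 * D - v) := by omega
        have h5 : w + (2 * D - v) = (w + 1) + (2 * D - 1 - v) := by omega
        have hDD : P.D ∣ 2 * D := (P.dvd.trans ((Dvd.intro_left _ rfl).trans hD)).mul_left 2
        have h6 : (((w + (2 * D - v) : ℕ) : ZMod P.l) = ((2 * D - 1 - v : ℕ) : ZMod P.l) +
            ((P.D : ℕ) : ZMod P.l)) ↔ (((w + 1 : ℕ) : ZMod P.l) = ((P.D : ℕ) : ZMod P.l)) := by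
          rw [h5]
          push_cast
          constructor
          · intro h
            linear_combination h
          · intro h
            rw [h]
            ring
        simp only [h6]
        by_cases h7 : ((w + 1 : ℕ) : ZMod P.l) = ((P.D : ℕ) : ZMod P.l)
        · have h8 : ((w + 1 : ℕ) : ZMod P.D) = 0 := by
            have := congrArg (red P) h7
            rw [map_natCast, map_natCast, ZMod.natCast_self] at this
            exact this
          have h9 : ((w + (2 * D - v) : ℕ) : ZMod P.D) = -1 - ((v : ℕ) : ZMod P.D) := by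
            have h10 : ((w + (2 * D - v) + v : ℕ) : ZMod P.D) = ((w : ℕ) : ZMod P.D) := by
              have : w + (2 * D - v) + v = w + 2 * D := by omega
              rw [this]
              push_cast
              have := (ZMod.natCast_eq_zero_iff (2 * D) P.D).mpr hDD
              push_cast at this
              rw [this, add_zero]
            push_cast at h10 h8 ⊢
            linear_combination h10 + h8
          simp only [h9]
          unfold evG
          rw [if_pos h7, one_mul]
          simp only [h4, h7, true_and]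
        · rw [if_neg h7, zero_mul, if_neg]
          exact fun h => h7 h.2.1
      · intro e he
        rw [mem_Ico] at he
        have : ¬ (2 * D - 1 - v < e) := by omega
        simp [this]
  · intro e' he'
    rw [mem_Ico] at he'
    have h2 := ev_cnt0 P hD D (fun x => if (x = ((e' : ℕ) : ZMod P.l) + ((P.D : ℕ) : ZMod P.l)) ∧
      red P x = y then 1 else 0)
    have h3 : D + D = 2 * D := by ring
    rw [h3] at h2
    have h4 : (∑ e ∈ Ico D (2 * D), if e' < e ∧ ((((e : ℕ) : ZMod P.l) = ((e' : ℕ) : ZMod P.l) +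
        ((P.D : ℕ) : ZMod P.l)) ∧ ((e : ℕ) : ZMod P.D) = y) then (1 : ZMod P.m) else 0) = 0 := by
      refine Eq.trans (sum_congr rfl fun e he => ?_) h2
      rw [mem_Ico] at he
      have h5 : e' < e := by omega
      have h6 : red P ((e : ℕ) : ZMod P.l) = ((e : ℕ) : ZMod P.D) := by simp [red]
      rw [h6]
      simp [h5]
    rw [h4, zero_mul]

variable (p : ℕ) [BP p]

lemma ev_dd {i k : ℕ} (h : i < k) : 3 * dd i + 4 ≤ dd k := by
  induction k with
  | zero => omega
  | succ k ih =>
    rcases Nat.lt_succ_iff_lt_or_eq.mp h with h | h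
    · have := ih h
      simp only [dd]
      omega
    · subst h
      simp [dd]

lemma ev_le_l (k : ℕ) : (lev p k).D ≤ (lev p k).l := by
  have := (lev p k).h3
  omega

lemma ev_lev_le {i k : ℕ} (h : i < k) : (lev p i).l + 2 * (lev p i).D ≤ (lev p k).D := by
  have h1 := ev_dd h
  have hp := BP.big (p := p)
  have hp0 : 0 < p := by omega
  have h2 : p ^ (dd i + 2) ≤ p ^ dd k := Nat.pow_le_pow_right hp0 (by omega)
  have h3 : 0 < p ^ dd i := Nat.pow_pos hp0
  change p ^ (dd i + 1) + 2 * p ^ dd i ≤ p ^ dd k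
  refine le_trans ?_ h2
  rw [pow_succ, pow_add]
  have h4 : p ^ dd i * p + 2 * p ^ dd i = p ^ dd i * (p + 2) := by ring
  rw [h4]
  refine Nat.mul_le_mul_left _ ?_
  nlinarith

lemma ev_lev_dvd {i k : ℕ} (h : i < k) : (lev p i).m * (lev p i).l ∣ (lev p k).D := by
  have h1 := ev_dd h
  change p ^ (2 * dd i + 3) * p ^ (dd i + 1) ∣ p ^ dd k
  rw [← pow_add]
  exact pow_dvd_pow _ (by omega)

lemma ev_disj {k k' v : ℕ} (h1 : (lev p k).l ≤ v) (h2 : v < (lev p k).l + 2 * (lev p k).D)
    (h1' : (lev p k').l ≤ v) (h2' : v < (lev p k').l + 2 * (lev p k').D) : k = k' := by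
  rcases lt_trichotomy k k' with h | h | h
  · have := ev_lev_le p h
    have := ev_le_l p k'
    omega
  · exact h
  · have := ev_lev_le p h
    have := ev_le_l p k
    omega

/-- M5b -/
theorem gam_bound (p : ℕ) [BP p] (j : ℕ) (z : ℕ → ℤ) (c : ℤ) (hc : 0 ≤ c) (hz : ∀ k, |z k| ≤ c)
    (e : ℕ) : |gam p j z e| ≤ c := by
  unfold gam
  split_ifs with h
  · exact hz j
  · set v := 2 * (lev p j).D - 1 - e with hv
    set t : ℕ → ℤ := fun k => ((if (lev p k).l + (lev p k).D ≤ v ∧
            v < (lev p k).l + 2 * (lev p k).D then z k else 0)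
        - (if (lev p k).l ≤ v ∧ v < (lev p k).l + (lev p k).D then z k else 0)) with ht
    have hne : ∀ k, t k ≠ 0 → (lev p k).l ≤ v ∧ v < (lev p k).l + 2 * (lev p k).D := by
      intro k hk
      by_contra hcon
      apply hk
      simp only [ht]
      rw [if_neg (by omega), if_neg (by omega), sub_zero]
    have hb : ∀ k, |t k| ≤ c := by
      intro k
      have h1 := hz k
      simp only [ht]
      split_ifs
      · simpa using hc
      · simpa using h1
      · simpa using h1
      · simpa using hc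
    by_cases hall : ∀ k ∈ range j, t k = 0
    · rw [sum_eq_zero hall]
      simpa using hc
    · push Not at hall
      obtain ⟨k, hk, hk0⟩ := hall
      rw [sum_eq_single_of_mem k hk]
      · exact hb k
      · intro k' _ hk'
        by_contra hk0'
        have h1 := hne k hk0
        have h2 := hne k' hk0'
        exact hk' (ev_disj p h2.1 h2.2 h1.1 h1.2)

lemma ev_ico {M : Type*} [AddCommMonoid M] {A B D : ℕ} (h : B ≤ D) (g : ℕ → M) :
    ∑ v ∈ range D, (if A ≤ v ∧ v < B then g v else 0) = ∑ v ∈ Ico A B, g v := by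
  rw [← sum_filter]
  congr 1
  ext v
  simp only [mem_filter, mem_range, mem_Ico]
  omega

lemma ev_above (P : Par) {D : ℕ} (hD : 2 * D ≤ P.D) (γ : ℕ → ZMod P.m) (y : ZMod P.D) :
    ∑ e ∈ Ico D (2 * D), ∑ e' ∈ range e,
      (if ((e : ℤ) - (e' : ℤ) - (P.D : ℤ) : ℤ) ≡ 0 [ZMOD P.l] ∧ ((e : ℕ) : ZMod P.D) = y then
        γ e' else 0) = 0 := by
  refine sum_eq_zero fun e he => sum_eq_zero fun e' he' => ?_
  rw [mem_Ico] at he
  rw [mem_range] at he'
  rw [if_neg]
  rintro ⟨h2, -⟩
  have h5 := P.h3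
  rw [Int.modEq_zero_iff_dvd] at h2
  have h7 := Int.eq_zero_of_abs_lt_dvd h2 (by
    rw [abs_lt]
    constructor <;> omega)
  omega

lemma ev_same (P : Par) (γ : ℕ → ZMod P.m) (c : ZMod P.m) (hγ : ∀ e < P.D, γ e = c)
    (y : ZMod P.D) :
    ∑ e ∈ Ico P.D (2 * P.D), ∑ e' ∈ range e,
      (if ((e : ℤ) - (e' : ℤ) - (P.D : ℤ) : ℤ) ≡ 0 [ZMOD P.l] ∧ ((e : ℕ) : ZMod P.D) = y then
        γ e' else 0) = c := by
  have h5 := P.h3
  have h6 := P.hD
  have h2 : ∀ e ∈ Ico P.D (2 * P.D), (∑ e' ∈ Finset.range e,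
      (if ((e : ℤ) - (e' : ℤ) - (P.D : ℤ) : ℤ) ≡ 0 [ZMOD P.l] ∧
        ((e : ℕ) : ZMod P.D) = y then γ e' else 0)) =
      if ((e : ℕ) : ZMod P.D) = y then c else 0 := by
    intro e he
    rw [mem_Ico] at he
    rw [sum_eq_single (e - P.D)]
    · have h3 : ((e : ℤ) - ((e - P.D : ℕ) : ℤ) - (P.D : ℤ) : ℤ) = 0 := by
        rw [Nat.cast_sub he.1]
        ring
      rw [h3, hγ _ (by omega)]
      simp
    · intro e' he' hne
      rw [mem_range] at he'
      rw [if_neg]
      rintro ⟨h2, -⟩
      rw [Int.modEq_zero_iff_dvd] at h2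
      have h7 := Int.eq_zero_of_abs_lt_dvd h2 (by
        rw [abs_lt]
        constructor <;> omega)
      apply hne
      omega
    · intro h3
      exfalso
      exact h3 (mem_range.mpr (by omega))
  rw [sum_congr rfl h2]
  have h3 : 2 * P.D = P.D + P.D := by omega
  rw [h3, ev_period P.D (fun x => if x = y then c else 0)]
  simp

/-- M5c -/
theorem eval_gam (p : ℕ) [BP p] (j : ℕ) (z : ℕ → ℤ) {B : ℕ} (β β' : ℕ → Fin B)
    (h : ∀ e < 2 * (lev p j).D, ((β' e : ℕ) : ℤ) - ((β e : ℕ) : ℤ) = gam p j z e) (i : ℕ) :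
    wp (kv (lev p i) B) (stdW (lev p j).D β β') = cst (lev p i) (if i ≤ j then z i else 0) := by
  rw [eval_stdW]
  have h0 : ∀ y : ZMod (lev p i).D, (∑ e ∈ Finset.Ico (lev p j).D (2 * (lev p j).D),
      ∑ e' ∈ Finset.range e, (if ((e : ℤ) - (e' : ℤ) - ((lev p i).D : ℤ) : ℤ) ≡ 0
        [ZMOD (lev p i).l] ∧ ((e : ℕ) : ZMod (lev p i).D) = y then
          ((((β' e' : ℕ) : ℤ) - ((β e' : ℕ) : ℤ) : ℤ) : ZMod (lev p i).m) else 0)) =
      (((if i ≤ j then z i else 0 : ℤ)) : ZMod (lev p i).m) := by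
    intro y
    have h1 : (∑ e ∈ Finset.Ico (lev p j).D (2 * (lev p j).D),
      ∑ e' ∈ Finset.range e, (if ((e : ℤ) - (e' : ℤ) - ((lev p i).D : ℤ) : ℤ) ≡ 0
        [ZMOD (lev p i).l] ∧ ((e : ℕ) : ZMod (lev p i).D) = y then
          ((((β' e' : ℕ) : ℤ) - ((β e' : ℕ) : ℤ) : ℤ) : ZMod (lev p i).m) else 0)) =
        ∑ e ∈ Finset.Ico (lev p j).D (2 * (lev p j).D),
      ∑ e' ∈ Finset.range e, (if ((e : ℤ) - (e' : ℤ) - ((lev p i).D : ℤ) : ℤ) ≡ 0
        [ZMOD (lev p i).l] ∧ ((e : ℕ) : ZMod (lev p i).D) = y then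
          (fun e' => (gam p j z e' : ZMod (lev p i).m)) e' else 0) := by
      refine sum_congr rfl fun e he => sum_congr rfl fun e' he' => ?_
      rw [mem_Ico] at he
      rw [mem_range] at he'
      rw [h e' (by omega)]
    rw [h1]
    rcases lt_trichotomy j i with hji | hji | hji
    · -- levels above
      have h3 := ev_lev_le p hji
      have h4 := ev_le_l p j
      rw [if_neg (by omega), ev_above (lev p i) (by omega)]
      simp
    · -- the same level
      subst hji
      rw [if_pos le_rfl]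
      refine ev_same (lev p j) _ _ (fun e he => ?_) y
      unfold gam
      rw [if_pos he]
    · -- levels below
      rw [if_pos hji.le]
      have hml : (lev p i).m * (lev p i).l ∣ (lev p j).D := ev_lev_dvd p hji
      rw [ev_main (lev p i) hml (fun e' => (gam p j z e' : ZMod (lev p i).m)) y]
      have h2 : ∀ v ∈ range (lev p j).D, evN (lev p i) v * evG (lev p i) y v *
          (fun e' => (gam p j z e' : ZMod (lev p i).m)) (2 * (lev p j).D - 1 - v) =
          ∑ k ∈ range j, ((z k : ZMod (lev p i).m) * ((if (lev p k).l + (lev p k).D ≤ v ∧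
            v < (lev p k).l + 2 * (lev p k).D then evN (lev p i) v * evG (lev p i) y v else 0)
        - (if (lev p k).l ≤ v ∧ v < (lev p k).l + (lev p k).D then
            evN (lev p i) v * evG (lev p i) y v else 0))) := by
        intro v hv
        rw [mem_range] at hv
        have h3 : gam p j z (2 * (lev p j).D - 1 - v) = ∑ k ∈ Finset.range j,
            ((if (lev p k).l + (lev p k).D ≤ v ∧ v < (lev p k).l + 2 * (lev p k).D then z k else 0)
        - (if (lev p k).l ≤ v ∧ v < (lev p k).l + (lev p k).D then z k else 0)) := by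
          unfold gam
          rw [if_neg (by omega)]
          have h4 : 2 * (lev p j).D - 1 - (2 * (lev p j).D - 1 - v) = v := by omega
          rw [h4]
        simp only []
        rw [h3, Int.cast_sum, mul_sum]
        refine sum_congr rfl fun k _ => ?_
        push_cast
        split_ifs <;> ring
      rw [sum_congr rfl h2, sum_comm]
      simp only [← mul_sum, sum_sub_distrib]
      have h3 : ∀ k ∈ range j, (z k : ZMod (lev p i).m) *
          ((∑ v ∈ range (lev p j).D, if (lev p k).l + (lev p k).D ≤ v ∧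
            v < (lev p k).l + 2 * (lev p k).D then evN (lev p i) v * evG (lev p i) y v else 0)
          - (∑ v ∈ range (lev p j).D, if (lev p k).l ≤ v ∧ v < (lev p k).l + (lev p k).D then
            evN (lev p i) v * evG (lev p i) y v else 0)) =
            if k = i then (z i : ZMod (lev p i).m) else 0 := by
        intro k hk
        rw [mem_range] at hk
        have hkD := ev_lev_le p hk
        rw [ev_ico (by omega), ev_ico (by omega)]
        have h4 : Ico ((lev p k).l + (lev p k).D) ((lev p k).l + 2 * (lev p k).D) =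
            Ico ((lev p k).l + (lev p k).D) ((lev p k).l + (lev p k).D + (lev p k).D) := by
          congr 1
          omega
        rw [h4, ← sum_Ico_add', ← sum_sub_distrib]
        rcases lt_trichotomy k i with hki | hki | hki
        · rw [if_neg (by omega), sum_eq_zero, mul_zero]
          intro v hv
          rw [mem_Ico] at hv
          have h5 := ev_lev_le p hki
          rw [evN_zero (lev p i) (by omega), evN_zero (lev p i) (by omega)]
          ring
        · subst hki
          rw [if_pos rfl]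
          have h5 : ∑ v ∈ Ico (lev p k).l ((lev p k).l + (lev p k).D),
              (evN (lev p k) (v + (lev p k).D) * evG (lev p k) y (v + (lev p k).D) -
                evN (lev p k) v * evG (lev p k) y v) =
              ∑ v ∈ Ico (lev p k).l ((lev p k).l + (lev p k).D), evG (lev p k) y v := by
            refine sum_congr rfl fun v hv => ?_
            rw [mem_Ico] at hv
            have h6 := evN_step (lev p k) hv.1 hv.2
            have h7 := evG_add (lev p k) y (dvd_refl _) v
            rw [h6, h7]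
            ring
          rw [h5, evG_sum, mul_one]
        · rw [if_neg (by omega), sum_eq_zero, mul_zero]
          intro v hv
          have h5 : (lev p i).m * (lev p i).l ∣ (lev p k).D := ev_lev_dvd p hki
          rw [evN_add (lev p i) h5, evG_add (lev p i) y
            (((lev p i).dvd.trans (Dvd.intro_left _ rfl)).trans h5)]
          ring
      rw [sum_congr rfl h3, sum_ite_eq' (range j) i, if_pos (mem_range.mpr hji)]
  ext e
  · rfl
  · rfl
  · simp only [h0]
    rfl
  · rfl

end gam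

end Pool.Agent.Helper55.LF
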